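import Mathlib
import Pool.Agent.K4H35.NT.Main
import Pool.Agent.K4H35.UK.Final

/-!
# Two finiteness theorems for the Hodge conjecture

(A) Let `S` be any class of smooth projective varieties which is closed under products (all abelian
varieties, all products of elliptic curves, all products of curves, ...), and let `Y` be any smooth
projective variety. There are one variety `B` in `S` and finitely many Hodge classes `F i` on the
varieties `B × Y ^ (n i)` such that, for all `A` in `S` and all `N`, the Hodge classes on `A × Y ^ N`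
are exactly the combinations of the classes obtained from the Hodge classes on the varieties
`A × B ^ t` (again in `S`) by products of the correspondences `F i` and permutations of the factors
of `Y ^ N`. So, if the Hodge conjecture holds on `S`, then it holds for all `A × Y ^ N` (`A` in `S`,
`N` arbitrary) if and only if the finitely many classes `F i` are algebraic. The Hodge conjecture is
known for the products of elliptic curves.

(B) There is a function `K` such that, for EVERY smooth projective variety `Y` whose total Betti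
number is at most `b` and with `|p - q| ≤ d` (`d = b` always works), all Hodge classes on all powers
`Y ^ N`, and all Hodge correspondences between powers of `Y`, are obtained from the Hodge
correspondences `Y ^ a → Y ^ c` with `a + c ≤ K b d` by linear combinations, compositions and
exterior products. So the Hodge conjecture for the one variety `Y ^ K` implies the Hodge
conjecture for all powers of `Y`, where `K` depends only on the total Betti number of `Y`, and not on
`Y`, its moduli or its Mumford-Tate group. For abelian varieties of dimension `g` the number `K`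
depends only on `g`: the Hodge conjecture for all powers of all of them is equivalent to the
Hodge conjecture for their `K(g)`-th powers, that is, in a bounded dimension.

`Cohomology`, `IsPolarizedHodge`, `IsHodge`, `Cohomology.prod`, `Cohomology.pow`, `IsCorrespondence`,
`transfer` and `transferredClasses` are defined in `Pool.Agent.K4H35.NT.Defs`; `exterior` and
`IsClosed` are defined below.
-/

namespace Pool.Agent.K4H35.Cand.Finiteness

open Matrix Pool.Agent.K4H35.NT

/-- The exterior product `F × G : H(Y ^ (a + a')) → H(Y ^ (c + c'))` of the maps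
`F : H(Y ^ a) → H(Y ^ c)` and `G : H(Y ^ a') → H(Y ^ c')`. -/
def exterior {Y : Cohomology} {a c a' c' : ℕ} (F : Matrix (Y.pow c).ι (Y.pow a).ι ℚ)
    (G : Matrix (Y.pow c').ι (Y.pow a').ι ℚ) :
    Matrix (Y.pow (c + c')).ι (Y.pow (a + a')).ι ℚ :=
  Matrix.of fun (x : Fin (c + c') → Y.ι) (y : Fin (a + a') → Y.ι) =>
    F (fun i => x (Fin.castAdd c' i)) (fun i => y (Fin.castAdd a' i)) *
      G (fun i => x (Fin.natAdd c i)) (fun i => y (Fin.natAdd a i))

/-- The property `P a c F` of maps `F : H(Y ^ a) → H(Y ^ c)` is preserved by linear combinations,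
compositions and exterior products (for instance, `F` is induced by an algebraic class on
`Y ^ a × Y ^ c`). -/
structure IsClosed (Y : Cohomology)
    (P : ∀ a c : ℕ, Matrix (Y.pow c).ι (Y.pow a).ι ℚ → Prop) : Prop where
  add : ∀ (a c : ℕ) (F G : Matrix (Y.pow c).ι (Y.pow a).ι ℚ), P a c F → P a c G → P a c (F + G)
  smul : ∀ (a c : ℕ) (r : ℚ) (F : Matrix (Y.pow c).ι (Y.pow a).ι ℚ), P a c F → P a c (r • F)
  comp : ∀ (a b c : ℕ) (F : Matrix (Y.pow b).ι (Y.pow a).ι ℚ)
    (G : Matrix (Y.pow c).ι (Y.pow b).ι ℚ), P a b F → P b c G → P a c (G * F)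
  prod : ∀ (a c a' c' : ℕ) (F : Matrix (Y.pow c).ι (Y.pow a).ι ℚ)
    (G : Matrix (Y.pow c').ι (Y.pow a').ι ℚ), P a c F → P a' c' G →
    P (a + a') (c + c') (exterior F G)

/-- **Two finiteness theorems for Hodge classes.** (A) For every class `S` of varieties closed under
products and every `Y` there are one variety `B` in `S` and finitely many Hodge classes `F i` on
`B × Y ^ (n i)` from which all Hodge classes on all `A × Y ^ N`, `A` in `S`, are obtained. (B) There
is a function `K` such that for every `Y` with total Betti number at most `b` and `|p - q| ≤ d` the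
Hodge correspondences between all powers of `Y` are generated by those from `Y ^ a` to `Y ^ c`
with `a + c ≤ K b d`. -/
theorem result :
    (∀ (S : Set Cohomology), S.Nonempty → (∀ X ∈ S, IsPolarizedHodge X) →
      (∀ X ∈ S, ∀ X' ∈ S, X.prod X' ∈ S) → ∀ Y : Cohomology, IsPolarizedHodge Y →
      ∃ B ∈ S, ∃ (m : ℕ) (n : Fin m → ℕ) (F : ∀ i, Matrix (Fin (n i) → Y.ι) B.ι ℚ),
        (∀ i, 1 ≤ n i ∧ IsCorrespondence B (Y.pow (n i)) (F i)) ∧
        ∀ A ∈ S, ∀ (N : ℕ) (x : A.ι × (Fin N → Y.ι) → ℚ),
          IsHodge (A.prod (Y.pow N)) x ↔ x ∈ transferredClasses A B Y F N) ∧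
    ∃ K : ℕ → ℕ → ℕ, ∀ (b d : ℕ) (Y : Cohomology), IsPolarizedHodge Y →
      Fintype.card Y.ι ≤ b →
      (∀ (k : ℤ) (x : Y.ι → ℂ), x ≠ 0 → Y.z *ᵥ x = (k : ℂ) • x → |k| ≤ d) →
      ∀ P : ∀ a c : ℕ, Matrix (Y.pow c).ι (Y.pow a).ι ℚ → Prop, IsClosed Y P →
      (∀ (a c : ℕ) (F : Matrix (Y.pow c).ι (Y.pow a).ι ℚ), a + c ≤ K b d →
        IsCorrespondence (Y.pow a) (Y.pow c) F → P a c F) →
      ∀ (a c : ℕ) (F : Matrix (Y.pow c).ι (Y.pow a).ι ℚ),
        IsCorrespondence (Y.pow a) (Y.pow c) F → P a c F := by
  refine ⟨fun S hne hpol hprod Y hY => main hne hpol hprod Y hY, ?_⟩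
  obtain ⟨K, hK⟩ := Pool.Agent.K4H35.UK.uniform
  refine ⟨K, fun b d Y hY hb hd P hP hbase => hK b d Y hY hb hd P ?_ hbase⟩
  exact ⟨fun {a c F G} => hP.add a c F G, fun {a c} r {F} => hP.smul a c r F,
    fun {a b c F G} => hP.comp a b c F G, fun {a c a' c' F G} => hP.prod a c a' c' F G⟩

end Pool.Agent.K4H35.Cand.Finiteness
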