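import Mathlib
import Pool.Agent.K4H35.NT.Main

/-!
# Noetherianity of the Hodge conjecture

Let `S` be any class of smooth projective varieties which is closed under products (all abelian
varieties, all products of elliptic curves, all products of curves, all varieties, ...), and let `Y`
be any smooth projective variety. There are one variety `B` in `S` and finitely many Hodge classes
`F 0, ..., F (m - 1)` on the varieties `B × Y ^ (n i)` such that, for all `A` in `S` and all `N`, the
Hodge classes on `A × Y ^ N` are exactly the combinations of the classes obtained from the Hodge
classes on the varieties `A × B ^ t` (which are again in `S`, and `t ≤ N`) by the correspondences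
`id × F (c 0) × ... × F (c (t - 1))` and the permutations of the factors of `Y ^ N`.

So, if the Hodge conjecture holds for the varieties in `S`, then it holds for all `A × Y ^ N` (`A` in
`S`, `N` arbitrary) if and only if the finitely many classes `F i` are algebraic, in particular if it
holds for the one variety `B × Y ^ K`, `K = max n i`. For the products of elliptic curves the Hodge
conjecture is known, hence for every `Y` there are elliptic curves `E 1, ..., E r` and a number `K`
such that the Hodge conjecture for all products of `Y ^ N` and arbitrary elliptic curves, for all
`N`, is equivalent to the Hodge conjecture for the one variety `E 1 × ... × E r × Y ^ K`. For the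
class of all abelian varieties, `B` is a universal Kuga-Satake variety of `Y` and the `F i` are
its Kuga-Satake classes.

If `Y` is a disjoint union of varieties then the theorem is about the products of powers of its
components. Since the Künneth components of Hodge classes are Hodge classes we can disregard the
degrees: a Hodge class is a sum of classes of types `(p, p)`, in all degrees.
-/

namespace Pool.Agent.K4H35.Cand.Noetherianity

open Pool.Agent.K4H35.NT

/-- **Noetherianity of the Hodge conjecture.** For every class `S` of smooth projective varieties
which is closed under products, and every smooth projective variety `Y`, there are one variety `B` in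
`S` and finitely many Hodge classes `F i` on `B × Y ^ (n i)` such that for all `A` in `S` and all
`N` the Hodge classes on `A × Y ^ N` are the combinations of the classes obtained from Hodge classes
on the varieties `A × B ^ t` by products of the correspondences `F i`. -/
theorem result (S : Set Cohomology) (hne : S.Nonempty) (hpol : ∀ X ∈ S, IsPolarizedHodge X)
    (hprod : ∀ X ∈ S, ∀ X' ∈ S, X.prod X' ∈ S) (Y : Cohomology) (hY : IsPolarizedHodge Y) :
    ∃ B ∈ S, ∃ (m : ℕ) (n : Fin m → ℕ) (F : ∀ i, Matrix (Fin (n i) → Y.ι) B.ι ℚ),
      (∀ i, 1 ≤ n i ∧ IsCorrespondence B (Y.pow (n i)) (F i)) ∧
      ∀ A ∈ S, ∀ (N : ℕ) (x : A.ι × (Fin N → Y.ι) → ℚ),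
        IsHodge (A.prod (Y.pow N)) x ↔ x ∈ transferredClasses A B Y F N :=
  main hne hpol hprod Y hY

end Pool.Agent.K4H35.Cand.Noetherianity
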