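import Mathlib
import Pool.Agent.K4H35.TN.Main

/-!
# Noetherianity of the Tate conjecture

Let `k` be any field, `ℓ` a prime different from its characteristic, `E` the algebraic closure of
the field of `ℓ`-adic numbers. Let `S` be any class of smooth projective varieties over `k` which is
closed under products and powers and whose `ℓ`-adic cohomology is semisimple (all abelian varieties
over a finitely generated field, by the theorems of Weil, Zarhin and Faltings; all products of elliptic
curves; ...), and let `Y` be any smooth projective variety over `k` whose powers have semisimple
cohomology. There are one variety `B` in `S` and finitely many Tate classes `F 0, ..., F (m - 1)` on the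
varieties `B × Y ^ (n i)` such that, for all `A` in `S` and all `N`, the Tate classes on `A × Y ^ N` are
exactly the combinations of the classes obtained from the Tate classes on the varieties `A × B ^ t`
(which are again in `S`) by the correspondences `id × F (c 0) × ... × F (c (t - 1))` and the
permutations of the factors of `Y ^ N`.

So, if the Tate conjecture holds for the varieties in `S`, then it holds for all `A × Y ^ N` (`A` in
`S`, `N` arbitrary) if and only if the finitely many classes `F i` are algebraic, in particular if it
holds for the one variety `B × Y ^ K`, `K = max n i`. The Tate conjecture is known for the products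
of elliptic curves over finite fields (Spiess) and over number fields.

The Tate conjecture with coefficients in `E` is equivalent to the one with coefficients in the
field of `ℓ`-adic numbers. For the operators `act` see `Pool.Agent.K4H35.TN.Defs`, where
`Cohomology`, `IsTate`, `IsSemisimple`, `IsDual`, `IsCorrespondence`, `transfer` and
`transferredClasses` are defined.
-/

namespace Pool.Agent.K4H35.Cand.TateNoetherianity

open Pool.Agent.K4H35.TN

/-- **Noetherianity of the Tate conjecture.** For every class `S` of varieties which is closed under
products and powers, with semisimple cohomology, and every variety `Y` whose powers have semisimple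
cohomology, there are one variety `B` in `S` and finitely many Tate classes `F i` on
`B × Y ^ (n i)` such that for all `A` in `S` and all `N` the Tate classes on `A × Y ^ N` are the
combinations of the classes obtained from Tate classes on the varieties `A × B ^ t` by products of
the correspondences `F i`. -/
theorem result {T E : Type} [Field E] (S : Set (Cohomology T E)) (hne : S.Nonempty)
    (hS : ∀ X ∈ S, IsSemisimple X ∧ IsDual X) (hprod : ∀ X ∈ S, ∀ X' ∈ S, X.prod X' ∈ S)
    (hpow : ∀ X ∈ S, ∀ n, X.pow n ∈ S) (Y : Cohomology T E) (hY : IsDual Y)
    (hYs : ∀ n, IsSemisimple (Y.pow n)) :
    ∃ B ∈ S, ∃ (m : ℕ) (n : Fin m → ℕ) (F : ∀ i, Matrix (Fin (n i) → Y.ι) B.ι E),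
      (∀ i, 1 ≤ n i ∧ IsCorrespondence B (Y.pow (n i)) (F i)) ∧
      ∀ A ∈ S, ∀ (N : ℕ) (x : A.ι × (Fin N → Y.ι) → E),
        IsTate (A.prod (Y.pow N)) x ↔ x ∈ transferredClasses A B Y F N :=
  main hne hS hprod hpow Y hY hYs

end Pool.Agent.K4H35.Cand.TateNoetherianity
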