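import Mathlib
import Pool.Agent.K4H35.UK.Final

/-!
# The Hodge conjecture for the powers of varieties with bounded Betti number

There is a function `K` such that, for every smooth projective variety `Y` whose total Betti number
is at most `b` and whose Hodge structure has weights `|p - q| ≤ d`, all Hodge correspondences
between the powers of `Y`, in particular all Hodge classes on all powers `Y ^ N`, are obtained from
the Hodge correspondences `Y ^ a → Y ^ c` with `a + c ≤ K b d` by linear combinations, compositions
and exterior products.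

Since `|p - q| ≤ dim Y < b` for irreducible `Y`, we may take `d = b`: the number `K b b` depends
only on the total Betti number. So there is a function `K` such that, for every smooth projective
variety `Y` with total Betti number at most `b`, the Hodge conjecture for the one variety `Y ^ K(b)`
implies the Hodge conjecture for all powers of `Y`. For abelian varieties `K` depends only on
the dimension, and neither on the Mumford-Tate group, nor on the field of definition, nor on the
degree of the polarization: the Hodge conjecture for all powers of all abelian varieties of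
dimension `g` is equivalent to the Hodge conjecture for their `K(g)`-th powers, varieties of the
bounded dimension `g * K(g)`.

`Cohomology`, `IsPolarizedHodge`, `Cohomology.pow` and `IsCorrespondence` are defined in
`Pool.Agent.K4H35.NT.Defs`; `exterior` and `IsClosed` are defined below.
-/

namespace Pool.Agent.K4H35.Cand.Uniform

open Matrix Pool.Agent.K4H35.NT

/-- The exterior product `F × G : H(Y ^ (a + a')) → H(Y ^ (c + c'))` of the maps
`F : H(Y ^ a) → H(Y ^ c)` and `G : H(Y ^ a') → H(Y ^ c')`. -/
def exterior {Y : Cohomology} {a c a' c' : ℕ} (F : Matrix (Y.pow c).ι (Y.pow a).ι ℚ)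
    (G : Matrix (Y.pow c').ι (Y.pow a').ι ℚ) :
    Matrix (Y.pow (c + c')).ι (Y.pow (a + a')).ι ℚ :=
  Matrix.of fun (x : Fin (c + c') → Y.ι) (y : Fin (a + a') → Y.ι) =>
    F (fun i => x (Fin.castAdd c' i)) (fun i => y (Fin.castAdd a' i)) *
      G (fun i => x (Fin.natAdd c i)) (fun i => y (Fin.natAdd a i))

/-- The property `P a c F` of maps `F : H(Y ^ a) → H(Y ^ c)` is preserved by linear combinations,
compositions and exterior products (for instance, `F` is induced by an algebraic class on
`Y ^ a × Y ^ c`). -/
structure IsClosed (Y : Cohomology)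
    (P : ∀ a c : ℕ, Matrix (Y.pow c).ι (Y.pow a).ι ℚ → Prop) : Prop where
  add : ∀ (a c : ℕ) (F G : Matrix (Y.pow c).ι (Y.pow a).ι ℚ), P a c F → P a c G → P a c (F + G)
  smul : ∀ (a c : ℕ) (r : ℚ) (F : Matrix (Y.pow c).ι (Y.pow a).ι ℚ), P a c F → P a c (r • F)
  comp : ∀ (a b c : ℕ) (F : Matrix (Y.pow b).ι (Y.pow a).ι ℚ)
    (G : Matrix (Y.pow c).ι (Y.pow b).ι ℚ), P a b F → P b c G → P a c (G * F)
  prod : ∀ (a c a' c' : ℕ) (F : Matrix (Y.pow c).ι (Y.pow a).ι ℚ)
    (G : Matrix (Y.pow c').ι (Y.pow a').ι ℚ), P a c F → P a' c' G →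
    P (a + a') (c + c') (exterior F G)

/-- **Uniform generation of Hodge classes.** There is a function `K` such that for every variety `Y`
with total Betti number at most `b` and `|p - q| ≤ d` on `H ^ (p, q)(Y) ≠ 0`, all Hodge
correspondences between powers of `Y` are generated by those from `Y ^ a` to `Y ^ c` with
`a + c ≤ K b d`: each property which is preserved by combinations, compositions and exterior
products, and which holds for the latter, holds for all of them. -/
theorem result : ∃ K : ℕ → ℕ → ℕ, ∀ (b d : ℕ) (Y : Cohomology), IsPolarizedHodge Y →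
    Fintype.card Y.ι ≤ b →
    (∀ (k : ℤ) (x : Y.ι → ℂ), x ≠ 0 → Y.z *ᵥ x = (k : ℂ) • x → |k| ≤ d) →
    ∀ P : ∀ a c : ℕ, Matrix (Y.pow c).ι (Y.pow a).ι ℚ → Prop, IsClosed Y P →
    (∀ (a c : ℕ) (F : Matrix (Y.pow c).ι (Y.pow a).ι ℚ), a + c ≤ K b d →
      IsCorrespondence (Y.pow a) (Y.pow c) F → P a c F) →
    ∀ (a c : ℕ) (F : Matrix (Y.pow c).ι (Y.pow a).ι ℚ),
      IsCorrespondence (Y.pow a) (Y.pow c) F → P a c F := by
  obtain ⟨K, hK⟩ := Pool.Agent.K4H35.UK.uniform
  refine ⟨K, fun b d Y hY hb hd P hP hbase => hK b d Y hY hb hd P ?_ hbase⟩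
  exact ⟨fun {a c F G} => hP.add a c F G, fun {a c} r {F} => hP.smul a c r F,
    fun {a b c F G} => hP.comp a b c F G, fun {a c a' c' F G} => hP.prod a c a' c' F G⟩

end Pool.Agent.K4H35.Cand.Uniform
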